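import Pool.Agent.Q35.TB.All

/-!
# K3 surfaces with finitely many rational points: double covers of `ℙ¹ × ℙ¹` and all their quadratic
twists over all extensions of bounded degree

`K` is a number field and `F` is a form over `K` of multidegree `(4, …, 4)` on `(ℙ¹)ⁿ` such that the
divisor `F = 0` is smooth. For an extension `L` of `K` and `e ∈ Lˣ` the double cover `X_e : w² = e F(x)`
of `(ℙ¹)ⁿ` over `L` is a Calabi–Yau variety of dimension `n`; for `n = 2` it is a K3 surface.

(1) For each `D` there is a finite set `T` of points of `(ℙ¹)ⁿ` over the algebraic closure such that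
for ALL extensions `L` of `K` of degree at most `D` and ALL `e ∈ Lˣ`: the set `X_e(L)` is infinite, or
all its points lie on the branch divisor `w = 0` or over `T`.

(2) So for each `L` the set `X_e(L)` is infinite or contained in the branch divisor, for all `e ∈ Lˣ`
except for finitely many classes modulo squares.

For `n = 2` the branch divisor is a curve of genus `9` and has only finitely many points over `L`
(Faltings); if it has no points over `L` then for all but finitely many `e` modulo squares `X_e(L)` is
empty or infinite.

Idea of the proof. Through each point there are `n` curves of genus one, in the directions of the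
coordinates, and if `w ≠ 0` then the difference of the two points `(x, w)`, `(x, -w)` is a rational
point of the Jacobian of the curve. If it has infinite order for one of the directions, then `X_e(L)`
is infinite. If it is torsion for the direction `j`, then the abscissa of the torsion point is bounded
at all places (by a power of the order at the archimedean places and by the inverse of the absolute
value of the order at the other places), which gives an inequality between the `j`-th derivatives of
`F` and `F` at `x`, with the same constants for all `L` and all twists. The order is at most a power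
of the logarithm of the height of `x`. If the point is torsion in all directions then the height of
the point of the projective space whose coordinates are the squares of all the derivatives of `F` is
at most `4 h(x) + O(log h(x))`; but it is at least `8 h(x) - O(1)`, because the divisor is smooth. So
`h(x)` is bounded, and there are only finitely many such `x` of degree at most `D` (Northcott).

Projects TT and TB of helper35, with helpers 13, 26, 38, 53, 65, 68, 79, 121, 129, 137, 149, 150, 151,
153, 164, 182, 190, 192, 193, 208, 210, 222, 224, 237, 238, 275, 285.
-/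

set_option autoImplicit false

namespace Pool.Agent.Results.MP_a2aa7d_nt.TwistsOverExtensions

open MvPolynomial

/-- `F` is a form of degree `4` in each pair of variables `(j, 0)`, `(j, 1)`, the coordinates of the
`j`-th factor of `(ℙ¹)ⁿ`. -/
def IsForm {K : Type} [Field K] {n : ℕ} (F : MvPolynomial (Fin n × Fin 2) K) : Prop :=
  ∀ m ∈ F.support, ∀ j, m (j, 0) + m (j, 1) = 4

/-- The divisor `F = 0` in `(ℙ¹)ⁿ` is smooth. -/
def Smooth {K : Type} [Field K] {n : ℕ} (F : MvPolynomial (Fin n × Fin 2) K) : Prop :=
  ∀ x : Fin n × Fin 2 → AlgebraicClosure K, (∀ j, ∃ b, x (j, b) ≠ 0) → ∃ p, aeval x (pderiv p F) ≠ 0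

/-- `X` is the normalised vector of coordinates of a point of `(ℙ¹)ⁿ`: for each factor the first
coordinate which is not zero is one. -/
def Normalised {R : Type} [Zero R] [One R] {n : ℕ} (X : Fin n × Fin 2 → R) : Prop :=
  ∀ j, X (j, 0) = 1 ∨ X (j, 0) = 0 ∧ X (j, 1) = 1

/-- The set of the rational points `(w, x)` of the double cover `w² = F(x)` of `(ℙ¹)ⁿ`, with normalised
coordinates (so each rational point is counted once). -/
def points {L : Type} [Field L] {n : ℕ} (F : MvPolynomial (Fin n × Fin 2) L) :
    Set (L × (Fin n × Fin 2 → L)) :=
  {P | Normalised P.2 ∧ P.1 ^ 2 = eval P.2 F}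

/-- **Quadratic twists over extensions of bounded degree: infinitely many rational points.** -/
theorem result (K : Type) [Field K] [NumberField K] (n : ℕ)
    (F : MvPolynomial (Fin n × Fin 2) K) (hF : IsForm F) (hs : Smooth F) (D : ℕ) :
    -- (1) one finite set for all extensions of degree at most `D` and all twists
    (∃ T : Set (Fin n × Fin 2 → AlgebraicClosure K), T.Finite ∧
      ∀ (L : Type) [Field L] [NumberField L] [Algebra K L], Module.finrank K L ≤ D →
      ∀ e : L, e ≠ 0 → (points (C e * map (algebraMap K L) F)).Infinite ∨
        ∀ P ∈ points (C e * map (algebraMap K L) F), P.1 = 0 ∨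
          ∀ φ : L →ₐ[K] AlgebraicClosure K, (fun p => φ (P.2 p)) ∈ T) ∧
    -- (2) all but finitely many twists, for each extension
    (∀ (L : Type) [Field L] [NumberField L] [Algebra K L], ∃ S : Set L, S.Finite ∧
      ∀ e : L, e ≠ 0 → (∀ s ∈ S, ∀ r : L, e ≠ s * r ^ 2) →
        (points (C e * map (algebraMap K L) F)).Infinite ∨
        ∀ P ∈ points (C e * map (algebraMap K L) F), P.1 = 0) := by
  have h := Pool.Agent.Q35.TB.inx2
  constructor
  · obtain ⟨T, hT, hT2⟩ := h K n F hF hs D
    refine ⟨T, hT, fun L _ _ _ hL e he => ?_⟩
    rcases hT2 L hL e he with h1 | h1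
    · exact Or.inl h1
    · refine Or.inr fun P hP => ?_
      by_cases hw : P.1 = 0
      · exact Or.inl hw
      · exact Or.inr fun φ => h1 P.1 P.2 hP.1 hP.2 hw φ
  · intro L _ _ _
    obtain ⟨T, hT, hT2⟩ := h K n F hF hs (Module.finrank K L)
    have : Algebra.IsAlgebraic K L := by
      have : FiniteDimensional K L := Module.Finite.of_restrictScalars_finite ℚ K L
      infer_instance
    obtain ⟨φ⟩ : Nonempty (L →ₐ[K] AlgebraicClosure K) := ⟨IsAlgClosed.lift⟩
    have hinj : Function.Injective fun (X : Fin n × Fin 2 → L) p => φ (X p) := by
      intro X Y hXY
      funext p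
      exact φ.injective (congrFun hXY p)
    have hfin : {X : Fin n × Fin 2 → L | (fun p => φ (X p)) ∈ T}.Finite :=
      Set.Finite.preimage hinj.injOn hT
    refine ⟨(fun X => eval X (map (algebraMap K L) F)) '' {X | (fun p => φ (X p)) ∈ T},
      hfin.image _, fun e he hne => ?_⟩
    rcases hT2 L le_rfl e he with h1 | h1
    · exact Or.inl h1
    · refine Or.inr fun P hP => ?_
      by_contra hw
      have h2 := h1 P.1 P.2 hP.1 hP.2 hw φ
      have h3 := hP.2
      rw [map_mul, eval_C] at h3
      have h4 : eval P.2 (map (algebraMap K L) F) ≠ 0 := by
        intro h0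
        rw [h0, mul_zero] at h3
        exact hw (pow_eq_zero_iff two_ne_zero |>.1 h3)
      refine hne _ ⟨P.2, h2, rfl⟩ (P.1 / eval P.2 (map (algebraMap K L) F)) ?_
      simp only
      field_simp
      linear_combination -h3

end Pool.Agent.Results.MP_a2aa7d_nt.TwistsOverExtensions
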